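import Pool.Agent.Helper76.TC.Goals

/-!
# Project TC: CL (moving inside a product of cells)
-/

set_option autoImplicit false

open Set Topology

namespace Pool.Agent.Helper45.TC.CL

open Pool.Agent.Helper76.TC

/-- `fo v` is the distance to any integer at distance at most `1/2` -/
theorem fo_eq (v : ℝ) (n : ℤ) (h : |v - n| ≤ 1 / 2) : fo v = |v - n| := by
  unfold fo
  apply le_antisymm (round_le v n)
  by_cases hm : round v = n
  · rw [hm]
  · have h1 : (1 : ℤ) ≤ |round v - n| := Int.one_le_abs (sub_ne_zero.mpr hm)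
    have h2 : (1 : ℝ) ≤ |(round v : ℝ) - n| := by exact_mod_cast h1
    have h3 : |(round v : ℝ) - n| ≤ |v - round v| + |v - n| := by
      rw [abs_sub_comm v (round v : ℝ)]
      have := abs_add_le ((round v : ℝ) - v) (v - n)
      simpa using this
    linarith

theorem fo_mem (v : ℝ) : 0 ≤ fo v ∧ fo v ≤ 1 / 2 :=
  ⟨abs_nonneg _, abs_sub_round v⟩

/-- the inverse of `fo` on a cell -/
theorem inv (s t : ℝ) (h : Cell s t) : ∃ a : ℝ → ℝ, Continuous a ∧ a (fo s) = s ∧ a (fo t) = t ∧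
    (∀ u, 0 ≤ u → u ≤ 1 / 2 → fo (a u) = u) ∧ ∀ u ∈ uIcc (fo s) (fo t), a u ∈ uIcc s t := by
  obtain ⟨j, h1, h2, h3, h4⟩ := h
  rcases Int.even_or_odd' j with ⟨k, hk | hk⟩
  · have hjk : (j : ℝ) = 2 * k := by exact_mod_cast hk
    have key : ∀ v : ℝ, (j : ℝ) / 2 ≤ v → v ≤ ((j : ℝ) + 1) / 2 → fo v = v - k := by
      intro v hv1 hv2
      have h0 : 0 ≤ v - k := by linarith
      rw [fo_eq v k (by rw [abs_of_nonneg h0]; linarith), abs_of_nonneg h0]
    have hs := key s h1 h2
    have ht := key t h3 h4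
    refine ⟨fun u => (k : ℝ) + u, by fun_prop, ?_, ?_, ?_, ?_⟩
    · show (k : ℝ) + fo s = s
      rw [hs]; ring
    · show (k : ℝ) + fo t = t
      rw [ht]; ring
    · intro u hu1 hu2
      show fo ((k : ℝ) + u) = u
      rw [key _ (by linarith) (by linarith)]
      ring
    · intro u hu
      show (k : ℝ) + u ∈ uIcc s t
      rw [hs, ht] at hu
      rcases le_total s t with hst | hst
      · rw [uIcc_of_le (by linarith)] at hu
        rw [uIcc_of_le hst]
        exact ⟨by linarith [hu.1], by linarith [hu.2]⟩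
      · rw [uIcc_of_ge (by linarith)] at hu
        rw [uIcc_of_ge hst]
        exact ⟨by linarith [hu.1], by linarith [hu.2]⟩
  · have hjk : (j : ℝ) = 2 * k + 1 := by exact_mod_cast hk
    have key : ∀ v : ℝ, (j : ℝ) / 2 ≤ v → v ≤ ((j : ℝ) + 1) / 2 → fo v = (k : ℝ) + 1 - v := by
      intro v hv1 hv2
      have h0 : v - ((k + 1 : ℤ) : ℝ) ≤ 0 := by push_cast; linarith
      have h5 : |v - ((k + 1 : ℤ) : ℝ)| = (k : ℝ) + 1 - v := by
        rw [abs_of_nonpos h0]; push_cast; ring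
      rw [fo_eq v (k + 1) (by rw [h5]; linarith), h5]
    have hs := key s h1 h2
    have ht := key t h3 h4
    refine ⟨fun u => (k : ℝ) + 1 - u, by fun_prop, ?_, ?_, ?_, ?_⟩
    · show (k : ℝ) + 1 - fo s = s
      rw [hs]; ring
    · show (k : ℝ) + 1 - fo t = t
      rw [ht]; ring
    · intro u hu1 hu2
      show fo ((k : ℝ) + 1 - u) = u
      rw [key _ (by linarith) (by linarith)]
      ring
    · intro u hu
      show (k : ℝ) + 1 - u ∈ uIcc s t
      rw [hs, ht] at hu
      rcases le_total s t with hst | hst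
      · rw [uIcc_of_ge (by linarith)] at hu
        rw [uIcc_of_le hst]
        exact ⟨by linarith [hu.2], by linarith [hu.1]⟩
      · rw [uIcc_of_le (by linarith)] at hu
        rw [uIcc_of_ge hst]
        exact ⟨by linarith [hu.2], by linarith [hu.1]⟩

theorem t (hBO : S_BO) : S_CL := by
  intro x x' hc
  have hi := fun i => inv (x i) (x' i) (hc i)
  choose a ha1 ha2 ha3 ha4 ha5 using hi
  obtain ⟨γ, hγ⟩ := hBO (fun i => fo (x i)) (fun i => fo (x' i))
  have hF : Continuous (fun z : Fin 3 → ℝ => fun i => a i (z i)) :=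
    continuous_pi fun i => (ha1 i).comp (continuous_apply i)
  have hx : (fun i => a i (fo (x i))) = x := funext ha2
  have hx' : (fun i => a i (fo (x' i))) = x' := funext ha3
  refine ⟨(γ.map hF).cast hx.symm hx'.symm, fun τ => ?_⟩
  obtain ⟨h1, h2⟩ := hγ τ
  have h6 : ∀ i, 0 ≤ γ τ i ∧ γ τ i ≤ 1 / 2 := by
    intro i
    have h7 := h1 i
    have h8 := fo_mem (x i)
    have h9 := fo_mem (x' i)
    rw [uIcc, mem_Icc] at h7
    exact ⟨le_trans (le_min h8.1 h9.1) h7.1, le_trans h7.2 (max_le h8.2 h9.2)⟩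
  have h10 : ∀ i, fo (a i (γ τ i)) = γ τ i := fun i => ha4 i _ (h6 i).1 (h6 i).2
  refine ⟨fun i => ?_, ?_⟩
  · show a i (γ τ i) ∈ uIcc (x i) (x' i)
    exact ha5 i _ (h1 i)
  · show med (fo (a 0 (γ τ 0))) (fo (a 1 (γ τ 1))) (fo (a 2 (γ τ 2))) ∈ uIcc (mm x) (mm x')
    rw [h10, h10, h10]
    exact h2

end Pool.Agent.Helper45.TC.CL
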